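import Mathlib
import Pool.Agent.Helper639.RO.All

set_option autoImplicit false

namespace Pool.Agent.Results.MP_f21dda_al.ARightOrderable

/-- `g` is a left `n`-Engel element of `G`: `[x, g, ..., g] = 1` (`n` copies of `g`) for all `x`,
where `[a, b] = a⁻¹ b⁻¹ a b`. -/
def IsLeftEngel {G : Type} [Group G] (n : ℕ) (g : G) : Prop :=
  ∀ x : G, (fun y : G => y⁻¹ * g⁻¹ * y * g)^[n] x = 1

/-- For all `n`, `r` there is `c` such that in every group with a right-invariant linear order any
`r` left `n`-Engel elements generate a subgroup whose `c`-th lower central term is trivial, and the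
boundedly Engel elements of every group with a right-invariant linear order form a subgroup. -/
theorem result :
    (∀ n r : ℕ, ∃ c : ℕ, ∀ (G : Type) [Group G] [LinearOrder G] [MulRightMono G] (b : Fin r → G),
      (∀ i, IsLeftEngel n (b i)) →
      (Subgroup.closure (Set.range b)).lowerCentralSeries c = ⊥) ∧
    (∀ (G : Type) [Group G] [LinearOrder G] [MulRightMono G],
      ∃ H : Subgroup G, ∀ g : G, g ∈ H ↔ ∃ n : ℕ, IsLeftEngel n g) := by
  constructor
  · intro n r
    obtain ⟨c, hc⟩ := Pool.Agent.Helper639.RO.class_bound_sub Pool.Agent.Helper639.RO.stepCone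
      (n + 1) r (by omega)
    refine ⟨c, ?_⟩
    intro G _ _ _ b hb
    exact hc G b (Pool.Agent.Helper639.RO.ro_of_order G) (fun i x =>
      Pool.Agent.Helper28.BO.iter_add (b i) n (n + 1) (by omega) x (hb i x))
  · intro G _ _ _
    exact Pool.Agent.Helper639.RO.main_ro G (Pool.Agent.Helper639.RO.ro_of_order G)

end Pool.Agent.Results.MP_f21dda_al.ARightOrderable
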