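import Mathlib
import Pool.Agent.Helper28.BL.L2

set_option autoImplicit false

namespace Pool.Agent.Results.MP_f21dda_al.LocIndicable

/-- In a locally indicable group (every nontrivial finitely generated subgroup maps onto the infinite cyclic group) the
boundedly Engel elements form a subgroup. -/
theorem result (G : Type) [Group G]
    (hLI : ∀ S : Subgroup G, S.FG → S ≠ ⊥ →
      ∃ φ : S →* Multiplicative ℤ, Function.Surjective φ) :
    ∃ H : Subgroup G, ∀ g : G,
      g ∈ H ↔ ∃ n : ℕ, ∀ x : G, (fun y : G => y⁻¹ * g⁻¹ * y * g)^[n] x = 1 :=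
  Pool.Agent.Helper28.BL.main G hLI

end Pool.Agent.Results.MP_f21dda_al.LocIndicable
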